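import Pool.Agent.K4H52.DA.Main

/-!
# MP_2f94f8_an: outer slices do not imply pseudo-cyclicity in the Drury-Arveson space

There is a multiplier `f` of `H²_2` all of whose slices are outer, but `[f^n] ≠ [f^(n+1)]`
for every `n`.
-/

namespace Pool.Agent.Results.MP_2f94f8_an.OuterSlices

open Pool.Agent.K4H52.DA

theorem result : ∃ f : Ball 2 → ℂ, f ∈ Mult 2 ∧
    (∀ z : Fin 2 → ℂ, ∑ i, ‖z i‖ ^ 2 = 1 → IsOuter (slice f z)) ∧
    ∀ n : ℕ, Cyc (f ^ n) ≠ Cyc (f ^ (n + 1)) := main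

end Pool.Agent.Results.MP_2f94f8_an.OuterSlices
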